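import Pool.Agent.N549.CG.Stm
import Pool.Agent.N549.AB.Abs4
import Pool.Agent.N27.CG.Cnt
import Pool.Agent.N368.CG.Cube
import Pool.Agent.N835.CG.KR
import Pool.Agent.N615.CG.Locc
import Pool.Agent.N426.CG.Asy

/-!
# Binary codes as a hard-core gas: the main theorem (project HG, fifth round)
-/

set_option autoImplicit false

namespace Pool.Agent.N549.CG

open MeasureTheory Finset
open scoped ENNReal NNReal
open Pool.Agent.N549.AB (Gas SupK LocK Nr pr PZ PM ac)
open Pool.Agent.N27.CG.Cnt (lint two_ne two_top prob V_pos)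

variable {n D : ℕ}

theorem int_unif (n : ℕ) (f : W n → ℝ) : ∫ x, f x ∂(unif n) = (∑ x, f x) / 2 ^ n := by
  have hp := prob n
  rw [integral_fintype (Integrable.of_finite)]
  simp only [smul_eq_mul]
  rw [Finset.sum_div]
  refine Finset.sum_congr rfl fun x _ => ?_
  have h1 : (unif n).real {x} = 1 / 2 ^ n := by
    unfold unif
    rw [measureReal_def, Measure.smul_apply, Measure.count_singleton, smul_eq_mul, mul_one]
    simp
  rw [h1]
  ring

theorem int_Nr (f : W n → ℝ) (x : W n) :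
    ∫ y in Nr (cF n D) x, f y ∂(unif n) = (∑ y with hammingDist x y ≤ D, f y) / 2 ^ n := by
  classical
  have hm : MeasurableSet (Nr (cF n D) x) := (Set.toFinite _).measurableSet
  rw [← integral_indicator hm, int_unif, Finset.sum_filter]
  congr 1
  refine Finset.sum_congr rfl fun y _ => ?_
  rw [Set.indicator_apply]
  have : y ∈ Nr (cF n D) x ↔ hammingDist x y ≤ D := by
    show cF n D x y = 0 ↔ _
    unfold cF
    split_ifs with h <;> simp [h]
  simp only [this]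

/-- supersaturation in the cube -/
theorem supC (n D : ℕ) (κ : ℝ) (hκ : 0 ≤ κ)
    (h : ∀ x : ℕ, 1 ≤ x → x ≤ n → -(κ * V n D) ≤ ((∑ j ∈ range (D + 1), K n j x : ℤ) : ℝ)) :
    SupK (unif n) (cF n D) ((V n D : ℝ) / 2 ^ n) κ := by
  intro f _ h01
  have h1 := Pool.Agent.N368.CG.cube_main n D κ hκ h f h01
  have e1 : ∀ x, ∫ y in Nr (cF n D) x, f y ∂(unif n) =
      (∑ y with hammingDist x y ≤ D, f y) / 2 ^ n := int_Nr f
  simp only [e1]
  rw [int_unif, int_unif]
  have e2 : ∑ x, f x * ((∑ y with hammingDist x y ≤ D, f y) / 2 ^ n) =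
      (∑ x, f x * ∑ y with hammingDist x y ≤ D, f y) / 2 ^ n := by
    rw [Finset.sum_div]
    exact Finset.sum_congr rfl fun x _ => by ring
  rw [e2]
  have h2 : (0 : ℝ) < 2 ^ n := by positivity
  set a := ∑ x, f x with ha
  set b := ∑ x, f x * ∑ y with hammingDist x y ≤ D, f y with hb
  have e3 : (V n D : ℝ) / 2 ^ n * ((a / 2 ^ n) ^ 2 - κ * (a / 2 ^ n)) =
      ((V n D : ℝ) * (a ^ 2 - κ * (2 ^ n * a))) / (2 ^ n * 2 ^ n * 2 ^ n) := by
    field_simp
  have e4 : b / 2 ^ n / 2 ^ n = (2 ^ n * b) / (2 ^ n * 2 ^ n * 2 ^ n) := by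
    field_simp
  rw [e3, e4]
  exact div_le_div_of_nonneg_right h1 (by positivity)

/-- few near pairs in the cube -/
theorem locC (n D : ℕ) (hD : D ≤ n) :
    LocK (unif n) (cF n D) ((2 : ℝ) ^ (D + 1) * V (n - D) (D / 2) / V n D)
      ((V n D : ℝ) / 2 ^ n) := by
  classical
  intro v T hT hTv
  set T' : Finset (W n) := univ.filter (· ∈ T) with hT'
  have hmem : ∀ y, y ∈ T' ↔ y ∈ T := fun y => by rw [hT', mem_filter]; simp
  have hV := V_pos n D
  have hV' : (0 : ℝ) < V n D := by exact_mod_cast hV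
  have key := Pool.Agent.N615.CG.locc n D hD v T' (fun y hy => by
    have h1 : y ∈ Nr (cF n D) v := hTv ((hmem y).1 hy)
    have h2 : cF n D v y = 0 := h1
    unfold cF at h2
    by_contra hcon
    rw [if_neg hcon] at h2
    exact one_ne_zero h2)
  -- the measures
  have hμ : ∀ S : Set (W n), unif n S = ((2 : ℝ≥0∞) ^ n)⁻¹ * #(univ.filter (· ∈ S)) := by
    intro S
    have h1 : unif n S = ∫⁻ u, S.indicator 1 u ∂(unif n) := by
      rw [lintegral_indicator_one (Set.toFinite _).measurableSet]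
    rw [h1, lint]
    congr 1
    simp only [Set.indicator_apply, Pi.one_apply]
    rw [Finset.sum_boole]
  have e1 : ∀ u, (unif n) (T ∩ Nr (cF n D) u) =
      ((2 : ℝ≥0∞) ^ n)⁻¹ * #{y ∈ T' | hammingDist u y ≤ D} := by
    intro u
    rw [hμ]
    congr 3
    ext y
    simp only [mem_filter, mem_univ, true_and, Set.mem_inter_iff, hmem]
    refine and_congr_right fun _ => ?_
    show cF n D u y = 0 ↔ _
    unfold cF
    split_ifs with h <;> simp [h]
  have e2 : ∫⁻ u in T, (unif n) (T ∩ Nr (cF n D) u) ∂(unif n) =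
      ((2 : ℝ≥0∞) ^ n)⁻¹ * (((2 : ℝ≥0∞) ^ n)⁻¹ *
        ((∑ u ∈ T', #{y ∈ T' | hammingDist u y ≤ D} : ℕ) : ℝ≥0∞)) := by
    rw [← lintegral_indicator hT, lint]
    congr 1
    rw [Nat.cast_sum, Finset.mul_sum, hT', Finset.sum_filter]
    refine Finset.sum_congr rfl fun u _ => ?_
    rw [Set.indicator_apply]
    by_cases hu : u ∈ T
    · rw [if_pos hu, if_pos hu, e1]
    · rw [if_neg hu, if_neg hu]
  rw [e2, hμ T]
  have e3 : ENNReal.ofReal ((2 : ℝ) ^ (D + 1) * V (n - D) (D / 2) / V n D *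
      ((V n D : ℝ) / 2 ^ n)) =
      ((2 : ℝ≥0∞) ^ n)⁻¹ * ((2 ^ (D + 1) * V (n - D) (D / 2) : ℕ) : ℝ≥0∞) := by
    have h3 : (2 : ℝ) ^ (D + 1) * V (n - D) (D / 2) / V n D * ((V n D : ℝ) / 2 ^ n) =
        (2 ^ n)⁻¹ * ((2 ^ (D + 1) * V (n - D) (D / 2) : ℕ) : ℝ) := by
      push_cast
      field_simp
    rw [h3, ENNReal.ofReal_mul (by positivity), ENNReal.ofReal_natCast,
      ENNReal.ofReal_inv_of_pos (by positivity), ENNReal.ofReal_pow (by norm_num)]
    simp
  rw [e3]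
  have h4 : ((∑ u ∈ T', #{y ∈ T' | hammingDist u y ≤ D} : ℕ) : ℝ≥0∞) ≤
      ((2 ^ (D + 1) * V (n - D) (D / 2) * #T' : ℕ) : ℝ≥0∞) := by exact_mod_cast key
  calc ((2 : ℝ≥0∞) ^ n)⁻¹ * (((2 : ℝ≥0∞) ^ n)⁻¹ *
        ((∑ u ∈ T', #{y ∈ T' | hammingDist u y ≤ D} : ℕ) : ℝ≥0∞))
      ≤ ((2 : ℝ≥0∞) ^ n)⁻¹ * (((2 : ℝ≥0∞) ^ n)⁻¹ *
        ((2 ^ (D + 1) * V (n - D) (D / 2) * #T' : ℕ) : ℝ≥0∞)) := by gcongr
    _ = _ := by
      rw [hT']
      push_cast
      ring

/-! ### The partition function -/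

theorem codes_zero (n D k : ℕ) (hk : 2 ^ n < k) : codes n D k = 0 := by
  unfold codes
  rw [Finset.card_eq_zero, Finset.filter_eq_empty_iff]
  intro C _ hC
  have h1 : #C ≤ Fintype.card (W n) := Finset.card_le_univ C
  have h2 : Fintype.card (W n) = 2 ^ n := by simp [W]
  omega

/-- The sum of `z ^ #C` over all codes. -/
noncomputable def ZC (n D : ℕ) (z : ℝ) : ℝ := ∑ k ∈ range (2 ^ n + 1), (codes n D k : ℝ) * z ^ k

/-- The mean size of a random code chosen with probability proportional to `z ^ #C`. -/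
noncomputable def NC (n D : ℕ) (z : ℝ) : ℝ :=
  (∑ k ∈ range (2 ^ n + 1), (k : ℝ) * ((codes n D k : ℝ) * z ^ k)) / ZC n D z

theorem term_pr (n D k : ℕ) (lam : ℝ) : lam ^ k / k.factorial * pr (unif n) (cF n D) k =
    (codes n D k : ℝ) * (lam / 2 ^ n) ^ k := by
  rw [(Pool.Agent.N27.CG.Cnt.cnt n D).2.2 k, div_pow]
  have : (k.factorial : ℝ) ≠ 0 := by positivity
  field_simp

theorem PZ_ZC (n D : ℕ) (lam : ℝ) : PZ (unif n) (cF n D) lam = ZC n D (lam / 2 ^ n) := by
  unfold PZ ZC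
  simp only [term_pr]
  refine tsum_eq_sum fun k hk => ?_
  rw [mem_range, not_lt] at hk
  rw [codes_zero n D k (by omega)]
  simp

theorem PM_NC (n D : ℕ) (lam : ℝ) : PM (unif n) (cF n D) lam = NC n D (lam / 2 ^ n) := by
  unfold PM NC
  rw [PZ_ZC]
  congr 1
  simp only [term_pr]
  refine tsum_eq_sum fun k hk => ?_
  rw [mem_range, not_lt] at hk
  rw [codes_zero n D k (by omega)]
  simp

/-- Half the difference of the exponents of McEliece, Rodemich, Rumsey, Welch and of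
Gilbert and Varshamov. -/
noncomputable def XM (δ : ℝ) : ℝ :=
  (h δ + h (1 / 2 - Real.sqrt (δ * (1 - δ))) - Real.log 2) / 2

/-- The exponent of the local bound. -/
noncomputable def XV (δ : ℝ) : ℝ :=
  h δ - δ * Real.log 2 - (1 - δ) * h (δ / (2 * (1 - δ)))

/-- The size of the window. -/
noncomputable def XC (δ : ℝ) : ℝ := min (XM δ) (XV δ)

end Pool.Agent.N549.CG
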