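import Pool.Agent.N549.CG.Main
import Pool.Agent.N549.AB.Abs5

/-!
# Binary codes as a hard-core gas: the main theorem (project HG, fifth round)
-/

set_option autoImplicit false

namespace Pool.Agent.N549.CG

open MeasureTheory Finset
open scoped ENNReal NNReal
open Pool.Agent.N549.AB (Gas SupK LocK Nr pr PZ PM ac)
open Pool.Agent.N27.CG.Cnt (lint two_ne two_top prob V_pos)

theorem mainC (hX : Pool.Agent.N549.AB.S_CANX) (δ ε : ℝ) (hδ : 0 < δ) (hδ1 : δ < 1 / 2)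
    (hε : 0 < ε) :
    ∃ (a C η : ℝ) (n₀ : ℕ), 0 < a ∧ 0 < C ∧ 0 < η ∧ ∀ n D : ℕ, n₀ ≤ n → Even D →
      |(D : ℝ) - δ * n| ≤ η * n →
      (∀ s : ℝ, 0 < s → s ≤ (XC δ - ε) * n →
        |(V n D : ℝ) / 2 ^ n * NC n D (s * Real.exp s / V n D) - s| ≤
          Real.exp (-(a * n)) * s ∧
        |(V n D : ℝ) / 2 ^ n * Real.log (ZC n D (s * Real.exp s / V n D)) - (s + s ^ 2 / 2)| ≤
          Real.exp (-(a * n)) * s) ∧
      (∀ k : ℕ, Real.exp (-(a * n)) ≤ k * ((V n D : ℝ) / 2 ^ n) →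
        k * ((V n D : ℝ) / 2 ^ n) ≤ (XC δ - ε) * n →
        0 < codes n D k ∧
        |Real.log ((k.factorial : ℝ) * codes n D k / (2 ^ n) ^ k) +
          k ^ 2 * ((V n D : ℝ) / 2 ^ n) / 2| ≤
            Real.exp (-(a * n)) * (k ^ 2 * ((V n D : ℝ) / 2 ^ n))) ∧
      ∀ k : ℕ, C * n ≤ k * ((V n D : ℝ) / 2 ^ n) →
        (codes n D k : ℝ) ≤ (2 ^ n) ^ k / k.factorial * Real.exp (-((XM δ - ε) * n * k)) := by
  obtain ⟨C, N₁, hC0, hlarge⟩ := Pool.Agent.N549.AB.large (XM δ) ε hε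
  obtain ⟨η₁, hη₁, n₁, hasy⟩ := Pool.Agent.N426.CG.asy δ (ε / 4) hδ hδ1 (by positivity)
  -- the volume is small
  have hent : 0 < Real.log 2 - h δ := by
    have : Real.binEntropy δ < Real.log 2 := by
      rw [Real.binEntropy_lt_log_two]
      exact fun h' => by rw [h'] at hδ1; norm_num at hδ1
    unfold h
    linarith
  set e₂ : ℝ := (Real.log 2 - h δ) / 2 with he₂
  have he₂0 : 0 < e₂ := by rw [he₂]; linarith
  obtain ⟨η₂, hη₂, n₂, hasy2⟩ := Pool.Agent.N426.CG.asy δ e₂ hδ hδ1 he₂0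
  obtain ⟨a, N₀, ha, huni⟩ := Pool.Agent.N549.AB.uniform_exp hX (XC δ) ε e₂ hε he₂0
  obtain ⟨n₃, hn₃⟩ := exists_nat_ge (max (max N₀ N₁) (2 / δ))
  set η : ℝ := min (min η₁ η₂) (min (δ / 2) ((1 / 2 - δ) / 2)) with hη
  have hη0 : 0 < η := by
    rw [hη]
    have : 0 < (1 / 2 - δ) / 2 := by linarith
    positivity
  refine ⟨a, C, η, max (max n₁ n₂) n₃, ha, hC0, hη0, fun n D hn hEven hDn => ?_⟩
  have g1 : n₁ ≤ n := ((le_max_left _ _).trans (le_max_left _ _)).trans hn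
  have g2 : n₂ ≤ n := ((le_max_right _ _).trans (le_max_left _ _)).trans hn
  have g3 : n₃ ≤ n := (le_max_right _ _).trans hn
  have hn3 : max (max N₀ N₁) (2 / δ) ≤ (n : ℝ) :=
    hn₃.trans (by exact_mod_cast g3)
  have r0 : N₀ ≤ n := ((le_max_left _ _).trans (le_max_left _ _)).trans hn3
  have r1 : N₁ ≤ n := ((le_max_right _ _).trans (le_max_left _ _)).trans hn3
  have r3 : 2 / δ ≤ n := (le_max_right _ _).trans hn3
  have hn0 : (0 : ℝ) < n := lt_of_lt_of_le (by positivity) r3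
  have d1 : |(D : ℝ) - δ * n| ≤ η₁ * n :=
    hDn.trans (mul_le_mul_of_nonneg_right ((min_le_left _ _).trans (min_le_left _ _)) hn0.le)
  have d2 : |(D : ℝ) - δ * n| ≤ η₂ * n :=
    hDn.trans (mul_le_mul_of_nonneg_right ((min_le_left _ _).trans (min_le_right _ _)) hn0.le)
  have d3 : |(D : ℝ) - δ * n| ≤ δ / 2 * n :=
    hDn.trans (mul_le_mul_of_nonneg_right ((min_le_right _ _).trans (min_le_left _ _)) hn0.le)
  have d4 : |(D : ℝ) - δ * n| ≤ (1 / 2 - δ) / 2 * n :=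
    hDn.trans (mul_le_mul_of_nonneg_right ((min_le_right _ _).trans (min_le_right _ _)) hn0.le)
  rw [abs_le] at d3 d4
  rw [div_le_iff₀ hδ] at r3
  have hD1 : 1 ≤ D := by
    have : (1 : ℝ) ≤ D := by nlinarith [d3.1]
    exact_mod_cast this
  have hDn2 : 2 * D < n := by
    have : 2 * (D : ℝ) < n := by nlinarith [d4.2]
    exact_mod_cast this
  obtain ⟨⟨y₀, hy1, hy2, hy3⟩, hloc3, -⟩ := hasy n D g1 d1
  obtain ⟨-, -, hvol⟩ := hasy2 n D g2 d2
  obtain ⟨hprob, hG, hpr⟩ := Pool.Agent.N27.CG.Cnt.cnt n D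
  have hV : (0 : ℝ) < V n D := by exact_mod_cast V_pos n D
  -- small volume
  have hsm : (V n D : ℝ) / 2 ^ n ≤ Real.exp (-(e₂ * n)) := by
    refine hvol.trans (le_of_eq ?_)
    congr 1
    rw [he₂]; ring
  have hsm1 : (V n D : ℝ) / 2 ^ n ≤ 1 := hsm.trans (Real.exp_le_one_iff.2 (by
    have : 0 ≤ e₂ * n := by positivity
    linarith))
  set κ : ℝ := Real.sqrt (2 ^ (n - 1) * ((n - 1).choose D) / ((n - 1).choose y₀)) / V n D with hκd
  have hκ0 : 0 ≤ κ := by rw [hκd]; positivity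
  have hsup := supC n D κ hκ0 (fun x hx1 hx2 => by
    have := Pool.Agent.N835.CG.kr n D y₀ hEven hD1 hDn2 hy1 hy2 x hx1 hx2
    refine le_trans (le_of_eq ?_) this
    rw [hκd]
    field_simp)
  have hloc := locC n D (by omega)
  have hδ0 : 0 ≤ (2 : ℝ) ^ (D + 1) * V (n - D) (D / 2) / V n D := by positivity
  have hX1 : XC δ ≤ XM δ := min_le_left _ _
  have hX2 : XC δ ≤ XV δ := min_le_right _ _
  have hκM : κ ≤ Real.exp (-((XM δ - ε / 4) * n)) := by
    refine hy3.trans (le_of_eq ?_)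
    congr 1
    unfold XM
    ring
  have hκ : κ ≤ Real.exp (-((XC δ - ε / 4) * n)) := by
    refine hκM.trans ?_
    rw [Real.exp_le_exp]
    have := mul_le_mul_of_nonneg_right (sub_le_sub_right hX1 (ε / 4)) hn0.le
    linarith
  have hδ : (2 : ℝ) ^ (D + 1) * V (n - D) (D / 2) / V n D ≤
      Real.exp (-((XC δ - ε / 4) * n)) := by
    have e : Real.exp (-(h δ - δ * Real.log 2 - (1 - δ) * h (δ / (2 * (1 - δ))) - ε / 4) * n) =
        Real.exp (-((XV δ - ε / 4) * n)) := by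
      congr 1
      unfold XV
      ring
    rw [e] at hloc3
    refine hloc3.trans ?_
    rw [Real.exp_le_exp]
    have := mul_le_mul_of_nonneg_right (sub_le_sub_right hX2 (ε / 4)) hn0.le
    linarith
  obtain ⟨u1, u2⟩ := huni (W n) (unif n) (cF n D) ((V n D : ℝ) / 2 ^ n) κ _ n r0 hG
    hsm hκ0 hsup hδ0 hloc hκ hδ
  have u3 := hlarge (W n) (unif n) (cF n D) ((V n D : ℝ) / 2 ^ n) κ n r1 hG
    hsm1 hκ0 hsup hκM
  have hac : ∀ s : ℝ, ac ((V n D : ℝ) / 2 ^ n) s / 2 ^ n = s * Real.exp s / V n D := by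
    intro s
    unfold ac
    field_simp
  refine ⟨fun s hs hsN => ?_, fun k hk hkN => ?_, fun k hk => ?_⟩
  · have := u1 s hs hsN
    rw [PZ_ZC, PM_NC, hac] at this
    exact this
  · obtain ⟨h1, h2⟩ := u2 k hk hkN
    rw [hpr k] at h1 h2
    refine ⟨?_, h2⟩
    by_contra hcon
    have : codes n D k = 0 := by omega
    rw [this] at h1
    simp at h1
  · have h1 := u3 k hk
    rw [hpr k] at h1
    have hf : (0 : ℝ) < k.factorial := by positivity
    have h2 : (0 : ℝ) < (2 ^ n) ^ k := by positivity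
    rw [div_le_iff₀ h2] at h1
    rw [div_mul_eq_mul_div, le_div_iff₀ hf]
    linarith

end Pool.Agent.N549.CG
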