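import Pool.Agent.N549.AB.Abs2

/-!
# Binary codes as a hard-core gas: definitions and statements (project HG, fifth round)
-/

set_option autoImplicit false

namespace Pool.Agent.N549.CG

open MeasureTheory Finset
open scoped ENNReal NNReal

/-- The binary words of length `n`. -/
abbrev W (n : ℕ) : Type := Fin n → Bool

/-- The number of words at distance at most `D` from a word. -/
def V (n D : ℕ) : ℕ := ∑ j ∈ range (D + 1), n.choose j

/-- The Krawtchouk polynomials. -/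
def K (n k x : ℕ) : ℤ := ∑ j ∈ range (k + 1), (-1) ^ j * (x.choose j : ℤ) * ((n - x).choose (k - j) : ℤ)

/-- CG/CUBE: supersaturation in the cube from the Krawtchouk polynomials -/
def S_CUBE : Prop := ∀ (n D : ℕ) (κ : ℝ), 0 ≤ κ →
  (∀ x : ℕ, 1 ≤ x → x ≤ n → -(κ * V n D) ≤ ((∑ j ∈ range (D + 1), K n j x : ℤ) : ℝ)) →
  ∀ f : W n → ℝ, (∀ x, 0 ≤ f x ∧ f x ≤ 1) →
    (V n D : ℝ) * ((∑ x, f x) ^ 2 - κ * (2 ^ n * ∑ x, f x)) ≤
      2 ^ n * ∑ x, f x * ∑ y with hammingDist x y ≤ D, f y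

/-- CG/KR: the Krawtchouk polynomials of even degree are not very negative -/
def S_KR : Prop := ∀ (n D y₀ : ℕ), Even D → 1 ≤ D → 2 * D < n → 2 * y₀ < n →
  4 * (D : ℝ) * (n + 1 - D) ≤ ((n : ℝ) - 1 - 2 * y₀) ^ 2 →
  ∀ x : ℕ, 1 ≤ x → x ≤ n →
    -Real.sqrt (2 ^ (n - 1) * ((n - 1).choose D) / ((n - 1).choose y₀)) ≤
      ((∑ j ∈ range (D + 1), K n j x : ℤ) : ℝ)

/-- CG/LOCC: few near pairs in a subset of a ball of the cube -/
def S_LOCC : Prop := ∀ (n D : ℕ), D ≤ n → ∀ (v : W n) (T : Finset (W n)),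
  (∀ y ∈ T, hammingDist v y ≤ D) →
  ∑ u ∈ T, #{y ∈ T | hammingDist u y ≤ D} ≤ 2 ^ (D + 1) * V (n - D) (D / 2) * #T

/-- The number of codes with `k` words and distances larger than `D`. -/
def codes (n D k : ℕ) : ℕ :=
  #{C : Finset (W n) | #C = k ∧ ∀ x ∈ C, ∀ y ∈ C, x ≠ y → D < hammingDist x y}

/-- The weight of a pair of words: `0` if their distance is at most `D`. -/
noncomputable def cF (n D : ℕ) (x y : W n) : ℝ≥0∞ := if hammingDist x y ≤ D then 0 else 1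

/-- The uniform probability on the words. -/
noncomputable def unif (n : ℕ) : Measure (W n) := ((2 : ℝ≥0∞) ^ n)⁻¹ • Measure.count

/-- CG/CNT: the codes and the coefficients of the partition function -/
def S_CNT : Prop := ∀ (n D : ℕ), IsProbabilityMeasure (unif n) ∧
  Pool.Agent.N549.AB.Gas (unif n) (cF n D) ((V n D : ℝ) / 2 ^ n) ∧
  ∀ k : ℕ, Pool.Agent.N549.AB.pr (unif n) (cF n D) k =
    (k.factorial : ℝ) * codes n D k / (2 ^ n) ^ k

/-- The natural binary entropy. -/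
noncomputable def h (x : ℝ) : ℝ := Real.binEntropy x

/-- CG/ASY: the exponents -/
def S_ASY : Prop := ∀ δ ε : ℝ, 0 < δ → δ < 1 / 2 → 0 < ε → ∃ η : ℝ, 0 < η ∧ ∃ n₀ : ℕ,
  ∀ n D : ℕ, n₀ ≤ n → |(D : ℝ) - δ * n| ≤ η * n →
  (∃ y₀ : ℕ, 2 * y₀ < n ∧ 4 * (D : ℝ) * (n + 1 - D) ≤ ((n : ℝ) - 1 - 2 * y₀) ^ 2 ∧
    Real.sqrt (2 ^ (n - 1) * ((n - 1).choose D) / ((n - 1).choose y₀)) / V n D ≤
      Real.exp (-((h δ + h (1 / 2 - Real.sqrt (δ * (1 - δ))) - Real.log 2) / 2 - ε) * n)) ∧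
  (2 : ℝ) ^ (D + 1) * V (n - D) (D / 2) / V n D ≤
    Real.exp (-(h δ - δ * Real.log 2 - (1 - δ) * h (δ / (2 * (1 - δ))) - ε) * n) ∧
  (V n D : ℝ) / 2 ^ n ≤ Real.exp (-((Real.log 2 - h δ) - ε) * n)

end Pool.Agent.N549.CG
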